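import Mathlib

set_option autoImplicit false

open Set Topology Filter

namespace Pool.Agent.Helper391.TreeC

/-- `s` is an initial segment of `t` -/
def Ini (s t : Set ℚ) : Prop := s ⊆ t ∧ ∀ r ∈ s, ∀ q ∈ t, q < r → q ∈ s

theorem Ini.refl (s : Set ℚ) : Ini s s := ⟨Subset.rfl, fun _ _ _ h _ => h⟩

theorem Ini.trans {s t u : Set ℚ} (h1 : Ini s t) (h2 : Ini t u) : Ini s u :=
  ⟨h1.1.trans h2.1, fun r hr q hq hlt => h1.2 r hr q (h2.2 r (h1.1 hr) q hq hlt) hlt⟩

theorem Ini.antisymm {s t : Set ℚ} (h1 : Ini s t) (h2 : Ini t s) : s = t :=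
  Subset.antisymm h1.1 h2.1

theorem Ini.inter_Iio {s t : Set ℚ} (h : Ini s t) {q : ℚ} (hq : q ∈ s) :
    t ∩ Iio q = s ∩ Iio q := by
  ext r
  constructor
  · rintro ⟨h1, h2⟩
    exact ⟨h.2 q hq r h1 h2, h2⟩
  · rintro ⟨h1, h2⟩
    exact ⟨h.1 h1, h2⟩

theorem ini_total {s t u : Set ℚ} (h1 : Ini s u) (h2 : Ini t u) : Ini s t ∨ Ini t s := by
  by_cases hst : s ⊆ t
  · exact Or.inl ⟨hst, fun r hr q hq hlt => h1.2 r hr q (h2.1 hq) hlt⟩
  · obtain ⟨a, ha, hat⟩ := not_subset.1 hst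
    have hlt : ∀ b ∈ t, b < a := by
      intro b hb
      by_contra hcon
      rcases lt_or_eq_of_le (not_lt.1 hcon) with h | h
      · exact hat (h2.2 b hb a (h1.1 ha) h)
      · exact hat (h ▸ hb)
    exact Or.inr ⟨fun b hb => h1.2 a ha b (h2.1 hb) (hlt b hb),
      fun r hr q hq hlt' => h2.2 r hr q (h1.1 hq) hlt'⟩

theorem first_diff {x y : Set ℚ} (hx : x.IsWF) (h : Ini y x) (hne : y ≠ x) :
    ∃ q, q ∈ x ∧ q ∉ y ∧ x ∩ Iio q = y := by
  have hn : (x \ y).Nonempty := by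
    rw [Set.sdiff_nonempty]
    intro hs
    exact hne (Subset.antisymm h.1 hs)
  have hwf : (x \ y).IsWF := hx.mono sdiff_subset
  have hm := hwf.min_mem hn
  refine ⟨hwf.min hn, hm.1, hm.2, ?_⟩
  ext r
  constructor
  · rintro ⟨h1, h2⟩
    by_contra hr
    exact absurd h2 (not_lt.2 (hwf.min_le hn ⟨h1, hr⟩))
  · intro hr
    refine ⟨h.1 hr, ?_⟩
    by_contra hcon
    have hcon : ¬ r < hwf.min hn := hcon
    rcases lt_or_eq_of_le (not_lt.1 hcon) with h' | h'
    · exact hm.2 (h.2 r hr _ hm.1 h')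
    · exact hm.2 (h' ▸ hr)

/-- index set of the coordinates -/
abbrev Idx := (Set ℚ × ℚ) ⊕ Set ℚ

open Classical in
/-- coding of the tree of well ordered sets of rationals -/
noncomputable def φ (x : Set ℚ) : Idx → Bool
  | Sum.inl (s, q) => decide (q ∈ x ∧ x ∩ Iio q = s)
  | Sum.inr t => decide (Ini x t)

theorem φ_inl {x : Set ℚ} {s : Set ℚ} {q : ℚ} :
    φ x (Sum.inl (s, q)) = true ↔ (q ∈ x ∧ x ∩ Iio q = s) := by
  simp [φ]

theorem φ_inr {x t : Set ℚ} : φ x (Sum.inr t) = true ↔ Ini x t := by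
  simp [φ]

/-- the compactum -/
def KK : Set (Idx → Bool) := closure (φ '' {x : Set ℚ | x.IsWF})

theorem agree {p : Idx → Bool} (hp : p ∈ KK) (F : Finset Idx) :
    ∃ x : Set ℚ, x.IsWF ∧ ∀ i ∈ F, φ x i = p i := by
  have ho : IsOpen {f : Idx → Bool | ∀ i ∈ F, f i = p i} := by
    have : {f : Idx → Bool | ∀ i ∈ F, f i = p i} = ⋂ i ∈ F, (fun f : Idx → Bool => f i) ⁻¹' {p i} := by
      ext f; simp
    rw [this]
    exact isOpen_biInter_finset fun i _ => (isOpen_discrete _).preimage (continuous_apply i)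
  obtain ⟨f, hf, x, hx, rfl⟩ := mem_closure_iff.1 hp _ ho (fun i _ => rfl)
  exact ⟨x, hx, hf⟩

/-- the path of a point -/
def yof (p : Idx → Bool) : Set ℚ := {q | ∃ s, p (Sum.inl (s, q)) = true}

theorem L1 {p : Idx → Bool} (hp : p ∈ KK) {s : Set ℚ} {q : ℚ} (h : p (Sum.inl (s, q)) = true) :
    yof p ∩ Iio q = s := by
  classical
  ext q'
  constructor
  · rintro ⟨⟨s', hs'⟩, hlt⟩
    obtain ⟨x, -, hx⟩ := agree hp {Sum.inl (s, q), Sum.inl (s', q')}
    have h1 := (hx (Sum.inl (s, q)) (by simp)).trans h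
    have h2 := (hx (Sum.inl (s', q')) (by simp)).trans hs'
    rw [φ_inl] at h1 h2
    rw [← h1.2]
    exact ⟨h2.1, hlt⟩
  · intro hq'
    obtain ⟨x, -, hx⟩ := agree hp {Sum.inl (s, q), Sum.inl (s ∩ Iio q', q')}
    have h1 := (hx (Sum.inl (s, q)) (by simp)).trans h
    have h2 := (hx (Sum.inl (s ∩ Iio q', q')) (by simp))
    rw [φ_inl] at h1
    have hq2 : q' ∈ x ∩ Iio q := by rw [h1.2]; exact hq'
    have h3 : φ x (Sum.inl (s ∩ Iio q', q')) = true := by
      rw [φ_inl]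
      refine ⟨hq2.1, ?_⟩
      rw [← h1.2]
      ext r
      constructor
      · rintro ⟨ha, hb⟩
        exact ⟨⟨ha, show r < q from lt_trans (show r < q' from hb) (show q' < q from hq2.2)⟩, hb⟩
      · rintro ⟨⟨ha, _⟩, hb⟩
        exact ⟨ha, hb⟩
    exact ⟨⟨_, h2.symm.trans h3⟩, hq2.2⟩

theorem L3 {p : Idx → Bool} (hp : p ∈ KK) {q : ℚ} (hq : q ∈ yof p) :
    p (Sum.inl (yof p ∩ Iio q, q)) = true := by
  obtain ⟨s, hs⟩ := hq
  rw [L1 hp hs]
  exact hs

theorem L4 {p : Idx → Bool} (hp : p ∈ KK) {s : Set ℚ} {q : ℚ} :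
    p (Sum.inl (s, q)) = true ↔ (q ∈ yof p ∧ yof p ∩ Iio q = s) := by
  constructor
  · intro h
    exact ⟨⟨s, h⟩, L1 hp h⟩
  · rintro ⟨h1, rfl⟩
    exact L3 hp h1

theorem L2 {p : Idx → Bool} (hp : p ∈ KK) : (yof p).IsWF := by
  classical
  have key : ∀ q ∈ yof p, (yof p ∩ Iio q).IsWF := by
    intro q hq
    obtain ⟨x, hx, hx2⟩ := agree hp {Sum.inl (yof p ∩ Iio q, q)}
    have h1 := (hx2 (Sum.inl (yof p ∩ Iio q, q)) (by simp)).trans (L3 hp hq)
    rw [φ_inl] at h1
    rw [← h1.2]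
    exact hx.mono inter_subset_left
  rw [Set.isWF_iff_no_descending_seq]
  intro f hf hmem
  have h0 : f 0 ∈ yof p := hmem 0
  have := (Set.isWF_iff_no_descending_seq.1 (key _ h0)) (fun n => f (n + 1))
    (fun a b hab => hf (by simpa using hab))
  apply this
  intro n
  exact ⟨hmem (n + 1), hf (Nat.succ_pos n)⟩

theorem L5a {p : Idx → Bool} (hp : p ∈ KK) {t : Set ℚ} (h : p (Sum.inr t) = true) :
    Ini (yof p) t := by
  classical
  constructor
  · intro q hq
    obtain ⟨x, -, hx⟩ := agree hp {Sum.inl (yof p ∩ Iio q, q), Sum.inr t}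
    have h1 := (hx (Sum.inl (yof p ∩ Iio q, q)) (by simp)).trans (L3 hp hq)
    have h2 := (hx (Sum.inr t) (by simp)).trans h
    rw [φ_inl] at h1
    rw [φ_inr] at h2
    exact h2.1 h1.1
  · intro r hr q hq hlt
    obtain ⟨x, -, hx⟩ := agree hp {Sum.inl (yof p ∩ Iio r, r), Sum.inr t}
    have h1 := (hx (Sum.inl (yof p ∩ Iio r, r)) (by simp)).trans (L3 hp hr)
    have h2 := (hx (Sum.inr t) (by simp)).trans h
    rw [φ_inl] at h1
    rw [φ_inr] at h2
    have h3 : q ∈ x ∩ Iio r := ⟨h2.2 r h1.1 q hq hlt, hlt⟩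
    rw [h1.2] at h3
    exact h3.1

theorem L5b {p : Idx → Bool} (hp : p ∈ KK) {t u : Set ℚ} (ht : p (Sum.inr t) = true)
    (hu : Ini (yof p) u) : p (Sum.inr u) = true := by
  classical
  by_contra hcon
  have hcon' : p (Sum.inr u) = false := by simpa using hcon
  have hyt := L5a hp ht
  -- any point near `p` properly extends the path
  have key : ∀ x : Set ℚ, x.IsWF → φ x (Sum.inr t) = p (Sum.inr t) →
      φ x (Sum.inr u) = p (Sum.inr u) → Ini x t ∧ Ini (yof p) x ∧ yof p ≠ x := by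
    intro x hx h1 h2
    rw [ht, φ_inr] at h1
    have h2' : ¬ Ini x u := by
      rw [hcon'] at h2
      intro h
      rw [φ_inr.2 h] at h2
      exact absurd h2 (by simp)
    rcases ini_total h1 hyt with h3 | h3
    · exact absurd (h3.trans hu) h2'
    · refine ⟨h1, h3, ?_⟩
      intro he
      exact h2' (he ▸ hu)
  obtain ⟨x, hx, hx2⟩ := agree hp {Sum.inr t, Sum.inr u}
  obtain ⟨hxt, hyx, hne⟩ := key x hx (hx2 _ (by simp)) (hx2 _ (by simp))
  obtain ⟨q, hqx, hqy, hq⟩ := first_diff hx hyx hne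
  obtain ⟨x', hx', hx2'⟩ := agree hp {Sum.inr t, Sum.inr u, Sum.inl (yof p, q)}
  obtain ⟨hxt', hyx', hne'⟩ := key x' hx' (hx2' _ (by simp)) (hx2' _ (by simp))
  obtain ⟨q', hqx', hqy', hq'⟩ := first_diff hx' hyx' hne'
  have hqq : q = q' := by
    rcases ini_total hxt hxt' with h | h
    · -- q ∈ x'
      have h1 : q ∈ x' := h.1 hqx
      rcases lt_trichotomy q q' with h2 | h2 | h2
      · have : q ∈ x' ∩ Iio q' := ⟨h1, h2⟩
        rw [hq'] at this
        exact absurd this hqy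
      · exact h2
      · have : q' ∈ x := h.2 q hqx q' hqx' h2
        have : q' ∈ x ∩ Iio q := ⟨this, h2⟩
        rw [hq] at this
        exact absurd this hqy'
    · have h1 : q' ∈ x := h.1 hqx'
      rcases lt_trichotomy q' q with h2 | h2 | h2
      · have : q' ∈ x ∩ Iio q := ⟨h1, h2⟩
        rw [hq] at this
        exact absurd this hqy'
      · exact h2.symm
      · have : q ∈ x' := h.2 q' hqx' q hqx h2
        have : q ∈ x' ∩ Iio q' := ⟨this, h2⟩
        rw [hq'] at this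
        exact absurd this hqy
  subst hqq
  have h4 := hx2' (Sum.inl (yof p, q)) (by simp)
  have h5 : φ x' (Sum.inl (yof p, q)) = true := φ_inl.2 ⟨hqx', hq'⟩
  rw [h5] at h4
  exact hqy ⟨_, h4.symm⟩

theorem L5 {p : Idx → Bool} (hp : p ∈ KK) {t : Set ℚ} (ht : p (Sum.inr t) = true) :
    p = φ (yof p) := by
  funext i
  rcases i with ⟨s, q⟩ | u
  · rw [Bool.eq_iff_iff, φ_inl, L4 hp]
  · rw [Bool.eq_iff_iff, φ_inr]
    exact ⟨fun h => L5a hp h, fun h => L5b hp ht h⟩

/-- two points of `KK` agreeing on a certain countable set of coordinates are equal -/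
theorem determined {p p' : Idx → Bool} (hp : p ∈ KK) (hp' : p' ∈ KK)
    (h1 : ∀ q : ℚ, p' (Sum.inl (yof p ∩ Iio q, q)) = p (Sum.inl (yof p ∩ Iio q, q)))
    (h2 : ∀ q : ℚ, p' (Sum.inl (yof p, q)) = p (Sum.inl (yof p, q)))
    (h3 : p' (Sum.inr (yof p)) = p (Sum.inr (yof p))) : p' = p := by
  have hy : Ini (yof p) (yof p') := by
    constructor
    · intro q hq
      exact ⟨_, (h1 q).trans (L3 hp hq)⟩
    · intro r hr q hq hlt
      have h4 := L1 hp' ((h1 r).trans (L3 hp hr))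
      have h5 : q ∈ yof p' ∩ Iio r := ⟨hq, hlt⟩
      rw [h4] at h5
      exact h5.1
  have hyy : yof p = yof p' := by
    by_contra hne
    obtain ⟨q, hq1, hq2, hq3⟩ := first_diff (L2 hp') hy hne
    have h4 : p' (Sum.inl (yof p, q)) = true := (L4 hp').2 ⟨hq1, hq3⟩
    rw [h2 q] at h4
    exact hq2 ⟨_, h4⟩
  by_cases hb : p (Sum.inr (yof p)) = true
  · have e1 := L5 hp hb
    have e2 := L5 hp' (h3.trans hb)
    rw [e2, ← hyy, ← e1]
  · funext i
    rcases i with ⟨s, q⟩ | u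
    · rw [Bool.eq_iff_iff, L4 hp, L4 hp', hyy]
    · have n1 : p (Sum.inr u) = false := by
        by_contra hcon
        have hcon' : p (Sum.inr u) = true := by simpa using hcon
        exact hb (L5b hp hcon' (Ini.refl _))
      have n2 : p' (Sum.inr u) = false := by
        by_contra hcon
        have hcon' : p' (Sum.inr u) = true := by simpa using hcon
        have := L5b hp' hcon' (Ini.refl _)
        rw [← hyy, h3] at this
        exact hb this
      rw [n1, n2]

theorem isClosed_KK : IsClosed KK := isClosed_closure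

instance : CompactSpace KK := isCompact_iff_compactSpace.1 isClosed_KK.isCompact

instance : FirstCountableTopology KK := by
  constructor
  intro p
  -- the countable set of coordinates
  let D : Set Idx := (range fun q : ℚ => (Sum.inl (yof p.1 ∩ Iio q, q) : Idx)) ∪
    (range fun q : ℚ => (Sum.inl (yof p.1, q) : Idx)) ∪ {Sum.inr (yof p.1)}
  have hD : D.Countable := ((countable_range _).union (countable_range _)).union
    (countable_singleton _)
  have : Countable D := hD.to_subtype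
  let π : KK → (D → Bool) := fun x i => x.1 i.1
  have hπ : Continuous π :=
    continuous_pi fun i => (continuous_apply i.1).comp continuous_subtype_val
  have hinj : ∀ x : KK, π x = π p → x = p := by
    intro x hx
    apply Subtype.ext
    have hc : ∀ i ∈ D, x.1 i = p.1 i := fun i hi => congrFun hx ⟨i, hi⟩
    exact determined p.2 x.2 (fun q => hc _ (Or.inl (Or.inl ⟨q, rfl⟩)))
      (fun q => hc _ (Or.inl (Or.inr ⟨q, rfl⟩))) (hc _ (Or.inr rfl))
  have hcomap : 𝓝 p = comap π (𝓝 (π p)) := by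
    apply le_antisymm
    · exact (hπ.tendsto p).le_comap
    · intro U hU
      obtain ⟨V, hVU, hVo, hpV⟩ := mem_nhds_iff.1 hU
      have hcl : IsClosed (π '' Vᶜ) := (hVo.isClosed_compl.isCompact.image hπ).isClosed
      refine ⟨(π '' Vᶜ)ᶜ, hcl.isOpen_compl.mem_nhds ?_, ?_⟩
      · rintro ⟨x, hx, hxe⟩
        exact hx (hinj x hxe ▸ hpV)
      · intro x hx
        apply hVU
        by_contra hxV
        exact hx ⟨x, hxV, rfl⟩
  rw [hcomap]
  infer_instance

end Pool.Agent.Helper391.TreeC
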